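import Pool.Agent.TH680.BSS.Defs

/-! The questions of a machine. -/

set_option autoImplicit false

namespace Pool.Agent.TH680.BSS

universe u v w

variable {K : Type u} [Field K] {C : Type v}

theorem bit_inj {a b : Bool} (h : bit K a = bit K b) : a = b := by
  cases a <;> cases b <;> simp_all [bit]

theorem Reads.length_le {x : ℤ → K} {l l' : List K} (h : Reads x l) (h' : Reads x l') :
    l.length ≤ l'.length := by
  by_contra hcon
  have h1 := (h.1 l'.length (by omega)).1
  exact h1 h'.2

theorem Reads.unique {x : ℤ → K} {l l' : List K} (h : Reads x l) (h' : Reads x l') : l = l' := by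
  have hl : l.length = l'.length := le_antisymm (h.length_le h') (h'.length_le h)
  refine List.ext_getElem hl fun i h1 h2 => ?_
  rw [← (h.1 i h1).2, ← (h'.1 i h2).2]

theorem reads_unique {x : ℤ → K} {w w' : List Bool} (h : Reads x (w.map (bit K)))
    (h' : Reads x (w'.map (bit K))) : w = w' := by
  have h1 := h.unique h'
  exact List.map_injective_iff.2 (fun a b hab => bit_inj hab) h1

/-- the questions to the second oracle: an answer depends on at most one bit -/
theorem exists_word (x : ℤ → K) : ∃ S : Finset (List Bool), S.card ≤ 1 ∧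
    ∀ (Q A A' : List Bool → Bool) (b : Bool), (∀ z ∈ S, A z = A' z) →
      ((∃ w : List Bool, Reads x (w.map (bit K)) ∧ two Q A b w = true) ↔
        ∃ w : List Bool, Reads x (w.map (bit K)) ∧ two Q A' b w = true) := by
  by_cases h : ∃ w : List Bool, Reads x (w.map (bit K))
  · obtain ⟨w, hw⟩ := h
    refine ⟨{w}, by simp, fun Q A A' b hA => exists_congr fun w' => and_congr_right fun hw' => ?_⟩
    have h1 := reads_unique hw' hw
    subst h1
    have h2 := hA w' (Finset.mem_singleton_self _)
    cases b
    · exact Iff.rfl
    · simp only [two, if_true, h2]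
  · refine ⟨∅, by simp, fun Q A A' b _ => ?_⟩
    exact ⟨fun ⟨w, hw, _⟩ => absurd ⟨w, hw⟩ h, fun ⟨w, hw, _⟩ => absurd ⟨w, hw⟩ h⟩

/-- few questions -/
theorem run_local {m : ℕ} (c : C → K) (M : Fin m → Instr C m) (Q A : List Bool → Bool) :
    ∀ (t : ℕ) (q : Fin m) (x : ℤ → K), ∃ T : Finset (List Bool), T.card ≤ t ∧
      ∀ A' : List Bool → Bool, (∀ z ∈ T, A' z = A z) →
        run c (two Q A') M t q x = run c (two Q A) M t q x := by
  classical
  intro t
  induction t with
  | zero => intro q x; exact ⟨∅, by simp, fun _ _ => rfl⟩
  | succ t ih =>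
    intro q x
    simp only [run]
    cases hq : M q with
    | op o i j k q' =>
      obtain ⟨T, hT, h⟩ := ih q' (Function.update x i (o.ev (x j) (x k)))
      exact ⟨T, by omega, h⟩
    | const a i q' =>
      obtain ⟨T, hT, h⟩ := ih q' (Function.update x i (c a))
      exact ⟨T, by omega, h⟩
    | copy i j q' =>
      obtain ⟨T, hT, h⟩ := ih q' (Function.update x i (x j))
      exact ⟨T, by omega, h⟩
    | shift s q' =>
      obtain ⟨T, hT, h⟩ := ih q' (fun z => x (z + s))
      exact ⟨T, by omega, h⟩
    | test i yes no =>
      by_cases hx : x i = 0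
      · obtain ⟨T, hT, h⟩ := ih yes x
        refine ⟨T, by omega, fun A' hA => ?_⟩
        simp only [if_pos hx]
        exact h A' hA
      · obtain ⟨T, hT, h⟩ := ih no x
        refine ⟨T, by omega, fun A' hA => ?_⟩
        simp only [if_neg hx]
        exact h A' hA
    | ask b yes no =>
      obtain ⟨S, hS, hw⟩ := exists_word x
      by_cases hx : ∃ w : List Bool, Reads x (w.map (bit K)) ∧ two Q A b w = true
      · obtain ⟨T, hT, h⟩ := ih yes x
        refine ⟨S ∪ T, (Finset.card_union_le _ _).trans (by omega), fun A' hA => ?_⟩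
        have h1 := (hw Q A' A b fun z hz => hA z (Finset.mem_union_left _ hz)).2 hx
        simp only [if_pos hx, if_pos h1]
        exact h A' fun z hz => hA z (Finset.mem_union_right _ hz)
      · obtain ⟨T, hT, h⟩ := ih no x
        refine ⟨S ∪ T, (Finset.card_union_le _ _).trans (by omega), fun A' hA => ?_⟩
        have h1 := fun h2 => hx ((hw Q A' A b fun z hz => hA z (Finset.mem_union_left _ hz)).1 h2)
        simp only [if_neg hx, if_neg h1]
        exact h A' fun z hz => hA z (Finset.mem_union_right _ hz)
    | halt b => exact ⟨∅, by simp, fun _ _ => rfl⟩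

/-- finitely many possible questions -/
theorem run_dep {m : ℕ} (c : C → K) (M : Fin m → Instr C m) (Q : List Bool → Bool) :
    ∀ (t : ℕ) (q : Fin m) (x : ℤ → K), ∃ F : Finset (List Bool),
      ∀ A A' : List Bool → Bool, (∀ z ∈ F, A z = A' z) →
        run c (two Q A) M t q x = run c (two Q A') M t q x := by
  classical
  intro t
  induction t with
  | zero => intro q x; exact ⟨∅, fun _ _ _ => rfl⟩
  | succ t ih =>
    intro q x
    simp only [run]
    cases hq : M q with
    | op o i j k q' => exact ih q' (Function.update x i (o.ev (x j) (x k)))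
    | const a i q' => exact ih q' (Function.update x i (c a))
    | copy i j q' => exact ih q' (Function.update x i (x j))
    | shift s q' => exact ih q' (fun z => x (z + s))
    | test i yes no =>
      by_cases hx : x i = 0
      · simp only [if_pos hx]
        exact ih yes x
      · simp only [if_neg hx]
        exact ih no x
    | ask b yes no =>
      obtain ⟨S, _, hw⟩ := exists_word x
      obtain ⟨F₁, h₁⟩ := ih yes x
      obtain ⟨F₂, h₂⟩ := ih no x
      refine ⟨S ∪ (F₁ ∪ F₂), fun A A' hA => ?_⟩
      have e1 := h₁ A A' fun z hz => hA z (Finset.mem_union_right _ (Finset.mem_union_left _ hz))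
      have e2 := h₂ A A' fun z hz => hA z (Finset.mem_union_right _ (Finset.mem_union_right _ hz))
      exact if_congr (hw Q A A' b fun z hz => hA z (Finset.mem_union_left _ hz)) e1 e2
    | halt b => exact ⟨∅, fun _ _ _ => rfl⟩

/-- more time -/
theorem run_mono {m : ℕ} (c : C → K) (O : Bool → List Bool → Bool) (M : Fin m → Instr C m) :
    ∀ (t t' : ℕ) (q : Fin m) (x : ℤ → K) (b : Bool), t ≤ t' → run c O M t q x = some b →
      run c O M t' q x = some b := by
  classical
  intro t
  induction t with
  | zero => intro t' q x b _ h; simp [run] at h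
  | succ t ih =>
    intro t' q x b ht h
    obtain ⟨t', rfl⟩ : ∃ s, t' = s + 1 := ⟨t' - 1, by omega⟩
    simp only [run] at h ⊢
    cases hq : M q with
    | op o i j k q' => rw [hq] at h; exact ih _ _ _ _ (by omega) h
    | const a i q' => rw [hq] at h; exact ih _ _ _ _ (by omega) h
    | copy i j q' => rw [hq] at h; exact ih _ _ _ _ (by omega) h
    | shift s q' => rw [hq] at h; exact ih _ _ _ _ (by omega) h
    | test i yes no =>
      rw [hq] at h
      simp only at h ⊢
      split_ifs at h ⊢ with h1
      · exact ih _ _ _ _ (by omega) h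
      · exact ih _ _ _ _ (by omega) h
    | ask a yes no =>
      rw [hq] at h
      simp only at h ⊢
      split_ifs at h ⊢ with h1
      · exact ih _ _ _ _ (by omega) h
      · exact ih _ _ _ _ (by omega) h
    | halt a => rw [hq] at h; exact h

end Pool.Agent.TH680.BSS
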