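import Pool.Agent.TH680.BSS.Loc

/-! A nondeterministic machine. -/

set_option autoImplicit false

namespace Pool.Agent.TH680.BSS

universe u v w

variable {K : Type u} [Field K]

/-- the vector `l` is a Boolean string in the oracle -/
def boo (A : List Bool → Bool) (l : List K) : Prop := ∃ w : List Bool, l = w.map (bit K) ∧ A w = true

/-- the sequence `x` contains the vector `l` at the positive places -/
def Ag (x : ℤ → K) (l : List K) : Prop := ∀ z : ℤ, 1 ≤ z → x z = place l z

theorem place_nil (z : ℤ) : place ([] : List K) z = 0 := by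
  unfold place
  split_ifs <;> simp

theorem place_one (a : K) (l : List K) : place (a :: l) 1 = 1 := by simp [place]

theorem place_two (a : K) (l : List K) : place (a :: l) 2 = a := by simp [place]

theorem place_shift (a : K) (l : List K) {z : ℤ} (hz : 1 ≤ z) :
    place (a :: l) (z + 2) = place l z := by
  unfold place
  rw [if_pos (by omega), if_pos hz]
  have h1 : (z + 2 - 1).toNat = (z - 1).toNat + 2 := by omega
  rw [h1]
  rfl

theorem Ag.shift {x : ℤ → K} {a : K} {l : List K} (h : Ag x (a :: l)) :
    Ag (fun z => x (z + 2)) l := by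
  intro z hz
  show x (z + 2) = _
  rw [h (z + 2) (by omega), place_shift a l hz]

theorem Ag.reads {l : List K} : ∀ {x : ℤ → K}, Ag x l → Reads x l := by
  induction l with
  | nil =>
    intro x h
    refine ⟨fun i hi => absurd hi (by simp), ?_⟩
    rw [h _ (by simp), place_nil]
  | cons a l ih =>
    intro x h
    obtain ⟨h1, h2⟩ := ih h.shift
    refine ⟨fun i hi => ?_, ?_⟩
    · rcases i with _ | i
      · refine ⟨?_, ?_⟩
        · have e := h 1 le_rfl
          rw [place_one] at e
          simp [e]
        · have e := h 2 (by omega)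
          rw [place_two] at e
          simpa using e
      · have h3 := h1 i (by simpa using hi)
        have e1 : (2 : ℤ) * ((i + 1 : ℕ) : ℤ) + 1 = 2 * (i : ℤ) + 1 + 2 := by push_cast; ring
        have e2 : (2 : ℤ) * ((i + 1 : ℕ) : ℤ) + 2 = 2 * (i : ℤ) + 2 + 2 := by push_cast; ring
        rw [e1, e2]
        exact h3
    · have e1 : (2 : ℤ) * (((a :: l).length : ℕ) : ℤ) + 1 = 2 * (l.length : ℤ) + 1 + 2 := by
        simp only [List.length_cons]
        push_cast
        ring
      rw [e1]
      exact h2

theorem Ag.ask {x : ℤ → K} {l : List K} (h : Ag x l) (Q A : List Bool → Bool) :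
    (∃ w : List Bool, Reads x (w.map (bit K)) ∧ two Q A true w = true) ↔ boo A l := by
  constructor
  · rintro ⟨w, h1, h2⟩
    exact ⟨w, h.reads.unique h1, h2⟩
  · rintro ⟨w, rfl, h2⟩
    exact ⟨w, h.reads, h2⟩

/-! ### Single steps -/

section

variable {C : Type v} {m : ℕ} {c : C → K} {O : Bool → List Bool → Bool} {M : Fin m → Instr C m}
  {t : ℕ} {q : Fin m} {x : ℤ → K}

theorem step_yes {i : ℤ} {y n : Fin m} (h : M q = .test i y n) (hx : x i = 0) :
    run c O M (t + 1) q x = run c O M t y x := by
  simp only [run, h]
  exact if_pos hx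

theorem step_no {i : ℤ} {y n : Fin m} (h : M q = .test i y n) (hx : x i ≠ 0) :
    run c O M (t + 1) q x = run c O M t n x := by
  simp only [run, h]
  exact if_neg hx

theorem step_ask_yes {b : Bool} {y n : Fin m} (h : M q = .ask b y n)
    (hx : ∃ w : List Bool, Reads x (w.map (bit K)) ∧ O b w = true) :
    run c O M (t + 1) q x = run c O M t y x := by
  simp only [run, h]
  exact if_pos hx

theorem step_ask_no {b : Bool} {y n : Fin m} (h : M q = .ask b y n)
    (hx : ¬ ∃ w : List Bool, Reads x (w.map (bit K)) ∧ O b w = true) :
    run c O M (t + 1) q x = run c O M t n x := by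
  simp only [run, h]
  exact if_neg hx

theorem step_shift {s : ℤ} {n : Fin m} (h : M q = .shift s n) :
    run c O M (t + 1) q x = run c O M t n (fun z => x (z + s)) := by
  simp only [run, h]

theorem step_halt {b : Bool} (h : M q = .halt b) : run c O M (t + 1) q x = some b := by
  simp only [run, h]

end

/-- the program of the machine: ask whether the vector is in the oracle; delete the first letter,
and repeat this if it was `0`; else ask once more -/
def vp (K : Type u) : Fin 8 → Instr K 8
  | 0 => .test 1 6 1
  | 1 => .ask true 2 6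
  | 2 => .test 2 3 4
  | 3 => .shift 2 0
  | 4 => .shift 2 5
  | 5 => .ask true 7 6
  | 6 => .halt false
  | 7 => .halt true

/-- the machine -/
def verM (K : Type u) : Machine K := ⟨7, vp K⟩

/-- the condition which it decides -/
def Good (A : List Bool → Bool) : List K → Prop
  | [] => False
  | a :: l => boo A (a :: l) ∧ ((a = 0 → Good A l) ∧ (a ≠ 0 → boo A l))

open Classical in
theorem vp_run (Q A : List Bool → Bool) (l : List K) : ∀ (x : ℤ → K), Ag x l →
    run id (two Q A) (vp K) (4 * l.length + 6) 0 x = some (decide (Good A l)) := by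
  induction l with
  | nil =>
    intro x h
    have e := h 1 le_rfl
    rw [place_nil] at e
    rw [show 4 * ([] : List K).length + 6 = 4 + 1 + 1 from rfl,
      step_yes (rfl : vp K 0 = .test 1 6 1) e, step_halt (rfl : vp K 6 = .halt false),
      decide_eq_false (p := Good A ([] : List K)) (fun h => h)]
  | cons a l ih =>
    intro x h
    have e1 := h 1 le_rfl
    rw [place_one] at e1
    have e2 := h 2 (by omega)
    rw [place_two] at e2
    have hI := ih _ h.shift
    have e3 : 4 * (a :: l).length + 6 = 4 * l.length + 6 + 1 + 1 + 1 + 1 := by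
      simp only [List.length_cons]
      ring
    rw [e3, step_no (rfl : vp K 0 = .test 1 6 1) (by rw [e1]; exact one_ne_zero)]
    by_cases h1 : boo A (a :: l)
    · rw [step_ask_yes (rfl : vp K 1 = .ask true 2 6) ((h.ask Q A).2 h1)]
      by_cases h2 : a = 0
      · rw [step_yes (rfl : vp K 2 = .test 2 3 4) (by rw [e2, h2]),
          step_shift (rfl : vp K 3 = .shift 2 0), hI]
        congr 1
        rw [decide_eq_decide]
        constructor
        · exact fun h3 => ⟨h1, fun _ => h3, fun h4 => absurd h2 h4⟩
        · exact fun h3 => h3.2.1 h2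
      · rw [step_no (rfl : vp K 2 = .test 2 3 4) (by rw [e2]; exact h2),
          step_shift (rfl : vp K 4 = .shift 2 5)]
        have e4 : 4 * l.length + 6 = 4 * l.length + 4 + 1 + 1 := rfl
        rw [e4]
        by_cases h3 : boo A l
        · rw [step_ask_yes (rfl : vp K 5 = .ask true 7 6) ((h.shift.ask Q A).2 h3),
            step_halt (rfl : vp K 7 = .halt true)]
          have h4 : Good A (a :: l) := ⟨h1, fun h4 => absurd h4 h2, fun _ => h3⟩
          simp [h4]
        · rw [step_ask_no (rfl : vp K 5 = .ask true 7 6) fun h4 => h3 ((h.shift.ask Q A).1 h4),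
            step_halt (rfl : vp K 6 = .halt false)]
          have h4 : ¬ Good A (a :: l) := fun h4 => h3 (h4.2.2 h2)
          simp [h4]
    · rw [step_ask_no (rfl : vp K 1 = .ask true 2 6) fun h4 => h1 ((h.ask Q A).1 h4),
        step_halt (rfl : vp K 6 = .halt false)]
      have h4 : ¬ Good A (a :: l) := fun h4 => h1 h4.1
      simp [h4]

theorem ag_place (l : List K) : Ag (place l) l := fun _ _ => rfl

open Classical in
theorem verM_answer (Q A : List Bool → Bool) (l : List K) :
    (verM K).answer Q A (4 * l.length + 6) l = some (decide (Good A l)) :=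
  vp_run Q A l _ (ag_place l)

/-! ### The problem -/

/-- the problem: is there a vector `y` of the same size such that `(x, y)` satisfies the
condition? -/
def lang (K : Type u) [Field K] (A : List Bool → Bool) : Set (List K) :=
  {x | ∃ y : List K, y.length = x.length ∧ Good A (x ++ y)}

theorem lang_inNP (Q A : List Bool → Bool) : InNP Q A (lang K A) := by
  classical
  refine ⟨verM K, Polynomial.X, 4 * Polynomial.X + 6, fun z => ⟨decide (Good A z), ?_⟩,
    fun x => ?_⟩
  · have := verM_answer Q A z
    simpa using this
  · unfold lang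
    rw [Set.mem_ofPred_eq, Polynomial.eval_X]
    refine exists_congr fun y => and_congr_right fun _ => ?_
    have h1 : (4 * Polynomial.X + 6 : Polynomial ℕ).eval (x ++ y).length =
        4 * (x ++ y).length + 6 := by simp
    rw [h1, verM_answer]
    simp

/-- the instances -/
def ins (N : ℕ) : List Bool := List.replicate (N - 1) false ++ [true]

theorem length_ins {N : ℕ} (hN : 1 ≤ N) : (ins N).length = N := by
  simp [ins]
  omega

/-- the strings of a witness -/
def grp (N : ℕ) (w : List Bool) : Finset (List Bool) :=
  insert w ((Finset.range N).image (fun i => List.replicate i false ++ true :: w))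

theorem good_iff (A : List Bool → Bool) (l : List K) (j : ℕ) :
    Good A (List.replicate j 0 ++ 1 :: l) ↔
      (∀ i ≤ j, boo A (List.replicate i (0 : K) ++ 1 :: l)) ∧ boo A l := by
  induction j with
  | zero =>
    simp only [List.replicate_zero, List.nil_append, Good, one_ne_zero, false_imp_iff, ne_eq,
      not_false_eq_true, true_imp_iff, true_and]
    refine and_congr_left' ⟨fun h i hi => ?_, fun h => ?_⟩
    · obtain rfl : i = 0 := by omega
      exact h
    · exact h 0 le_rfl
  | succ j ih =>
    rw [List.replicate_succ, List.cons_append, Good, ih]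
    simp only [true_imp_iff, ne_eq, not_true_eq_false, false_imp_iff, and_true]
    constructor
    · rintro ⟨h1, h2, h3⟩
      refine ⟨fun i hi => ?_, h3⟩
      rcases Nat.lt_or_ge i (j + 1) with h4 | h4
      · exact h2 i (by omega)
      · obtain rfl : i = j + 1 := by omega
        rw [List.replicate_succ, List.cons_append]
        exact h1
    · rintro ⟨h1, h3⟩
      refine ⟨?_, fun i hi => h1 i (by omega), h3⟩
      have := h1 (j + 1) le_rfl
      rwa [List.replicate_succ, List.cons_append] at this

theorem boo_map (A : List Bool → Bool) (w : List Bool) : boo A (w.map (bit K)) ↔ A w = true := by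
  constructor
  · rintro ⟨w', h, h1⟩
    rwa [List.map_injective_iff.2 (fun a b hab => bit_inj hab) h]
  · exact fun h => ⟨w, rfl, h⟩

theorem ins_mem (A : List Bool → Bool) {N : ℕ} (hN : 1 ≤ N) :
    (ins N).map (bit K) ∈ lang K A ↔ ∃ w : List Bool, w.length = N ∧ ∀ z ∈ grp N w, A z = true := by
  have h0 : ∀ y : List K, (ins N).map (bit K) ++ y = List.replicate (N - 1) 0 ++ 1 :: y := by
    intro y
    simp [ins, bit]
  have h1 : ∀ (i : ℕ) (w : List Bool), List.replicate i (0 : K) ++ 1 :: w.map (bit K) =
      (List.replicate i false ++ true :: w).map (bit K) := by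
    intro i w
    simp [bit]
  unfold lang
  rw [Set.mem_ofPred_eq]
  simp only [List.length_map, length_ins hN, h0, good_iff]
  constructor
  · rintro ⟨y, hy, h2, w, rfl, h3⟩
    refine ⟨w, by simpa using hy, fun z hz => ?_⟩
    rw [grp, Finset.mem_insert, Finset.mem_image] at hz
    rcases hz with rfl | ⟨i, hi, rfl⟩
    · exact h3
    · rw [Finset.mem_range] at hi
      have h4 := h2 i (by omega)
      rw [h1, boo_map] at h4
      exact h4
  · rintro ⟨w, hw, h2⟩
    refine ⟨w.map (bit K), by simpa using hw, fun i hi => ?_, w, rfl, h2 w ?_⟩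
    · rw [h1, boo_map]
      apply h2
      rw [grp, Finset.mem_insert, Finset.mem_image]
      exact Or.inr ⟨i, Finset.mem_range.2 (by omega), rfl⟩
    · rw [grp, Finset.mem_insert]
      exact Or.inl rfl

end Pool.Agent.TH680.BSS
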