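import Pool.Agent.TH680.SE.Engine

/-! Certificates and rare witnesses: witnesses of several lengths. -/

set_option autoImplicit false

namespace Pool.Agent.TH680.BSS

open Pool.Agent.NPC Pool.Agent.H620R2.Gauge Pool.Agent.H591R3.PHG MeasureTheory ProbabilityTheory
  Finset Pool.Agent.W900.IE Pool.Agent.W900.PS Pool.Agent.H622R2 Pool.Agent.W900
  Pool.Agent.TH680.SE

variable (p : List Bool → unitInterval)

/-- **Certificates cannot replace rare witnesses.** -/
theorem engine2 {P : ℕ → Prop} [DecidablePred P] {W : ℕ → Finset (List Bool)}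
    {g : ℕ → List Bool → Finset (List Bool)} {t : Oracle} {Acc : ℕ → Set Oracle} {π : ℕ → ℝ}
    (hπ0 : ∀ N, 0 ≤ π N)
    (hsep : ∀ N, ∀ w ∈ W N, ∀ w' ∈ W N, w ≠ w' → Disjoint (g N w) (g N w'))
    (hlen : ∀ N, ∀ w ∈ W N, ∀ z ∈ g N w, N ≤ z.length)
    (hoff : ∀ N N', P N → P N' → N ≠ N' → ∀ w ∈ W N, ∀ w' ∈ W N', Disjoint (g N w) (g N' w'))
    (hπ : ∀ N, P N → ∀ w ∈ W N, ∏ z ∈ g N w, ber (p z) (t z) = π N)
    (hμ : ∀ N, P N → (W N).card * π N ≤ 1 / 2)
    (hsum : ¬ Summable (fun N => if P N then (W N).card * π N else 0))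
    (hdep : ∀ N, ∃ F, DepO F (Acc N))
    (hcert : ∀ N, P N → ∀ A ∈ Acc N, ∃ T : Finset (List Bool), 2 * T.card ≤ (W N).card ∧
      ∀ A', (∀ z ∈ T, A' z = A z) → A' ∈ Acc N) :
    ∀ᵐ A ∂(indep p), ∃ᶠ N in Filter.atTop,
      P N ∧ ¬ (A ∈ Acc N ↔ ∀ w ∈ W N, A ∉ wit (g N w) t) := by
  classical
  set R : ℕ → Set Oracle := fun N => {A | P N → (A ∈ Acc N ↔ ∀ w ∈ W N, A ∉ wit (g N w) t)}
    with hR
  choose F hF using hdep
  set FR : ℕ → Finset (List Bool) := fun N => F N ∪ (W N).biUnion (g N) with hFR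
  have hRd : ∀ N, DepO (FR N) (R N) := by
    intro N A A' h hA hP
    have h1 := hA hP
    have h2 : A ∈ Acc N ↔ A' ∈ Acc N :=
      ⟨hF N A A' fun z hz => h z (Finset.mem_union_left _ hz),
        hF N A' A fun z hz => (h z (Finset.mem_union_left _ hz)).symm⟩
    have h3 : ∀ w ∈ W N, (A ∈ wit (g N w) t ↔ A' ∈ wit (g N w) t) := by
      intro w hw
      have h4 : ∀ z ∈ g N w, A z = A' z := fun z hz =>
        h z (Finset.mem_union_right _ (Finset.mem_biUnion.2 ⟨w, hw, hz⟩))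
      exact ⟨wit_dep _ _ A A' h4, wit_dep _ _ A' A fun z hz => (h4 z hz).symm⟩
    rw [← h2, h1]
    exact forall₂_congr fun w hw => not_congr (h3 w hw)
  suffices hkey : ∀ N₀, indep p {A | ∀ N, N₀ ≤ N → A ∈ R N} = 0 by
    have h1 : ∀ᵐ A ∂(indep p), ∀ N₀, ¬ ∀ N, N₀ ≤ N → A ∈ R N := by
      rw [ae_all_iff]
      intro N₀
      rw [ae_iff]
      simpa using hkey N₀
    filter_upwards [h1] with A hA
    rw [Filter.frequently_atTop]
    intro N₀
    have h2 := hA N₀
    push Not at h2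
    obtain ⟨N, hN, h3⟩ := h2
    rw [hR, Set.mem_ofPred_eq] at h3
    push Not at h3
    refine ⟨N, hN, h3.1, ?_⟩
    intro hcon
    rcases h3.2 with h4 | h4
    · obtain ⟨w, hw, h5⟩ := h4.2
      exact hcon.1 h4.1 w hw h5
    · exact h4.1 (hcon.2 h4.2)
  intro N₀
  set E : Set Oracle := {A | ∀ N, N₀ ≤ N → A ∈ R N} with hE
  set C : ℕ → Set Oracle := fun M => {A | ∀ N ∈ Finset.Ico N₀ M, A ∈ R N} with hC
  set FC : ℕ → Finset (List Bool) := fun M => (Finset.Ico N₀ M).biUnion FR with hFC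
  have hCd : ∀ M, DepO (FC M) (C M) := by
    intro M A A' h hA N hN
    refine hRd N A A' (fun z hz => h z ?_) (hA N hN)
    exact Finset.mem_biUnion.2 ⟨N, hN, hz⟩
  have hanti : Antitone C := by
    intro M M' h A hA N hN
    refine hA N ?_
    rw [Finset.mem_Ico] at hN ⊢
    omega
  have hEC : E = ⋂ M, C M := by
    ext A
    rw [Set.mem_iInter]
    constructor
    · intro h M N hN
      exact h N (Finset.mem_Ico.1 hN).1
    · intro h N hN
      exact h (N + 1) N (Finset.mem_Ico.2 ⟨hN, by omega⟩)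
  have hsub : ∀ M, E ⊆ C M := fun M => by
    rw [hEC]
    exact Set.iInter_subset _ _
  by_contra hpos
  have hEpos : 0 < (indep p).real E := by
    rw [Measure.real, ENNReal.toReal_pos_iff]
    exact ⟨pos_iff_ne_zero.2 hpos, measure_lt_top _ _⟩
  have htend : Filter.Tendsto (fun M => (indep p).real (C M)) Filter.atTop
      (nhds ((indep p).real E)) := by
    have h1 := tendsto_measure_iInter_atTop (μ := indep p)
      (fun M => (hCd M).measurable.nullMeasurableSet) hanti ⟨0, measure_ne_top _ _⟩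
    rw [← hEC] at h1
    exact (ENNReal.tendsto_toReal (measure_ne_top _ _)).comp h1
  obtain ⟨M₁, hM₁⟩ := (htend.eventually (gt_mem_nhds
    (show (indep p).real E < (1 + 1 / 1024) * (indep p).real E by linarith))).exists
  set D := FC M₁ with hD
  set C₁ := C M₁ with hC₁
  have hC1d : DepO D C₁ := hCd M₁
  have hEC1 : (indep p).real E ≤ (indep p).real C₁ := measureReal_mono (hsub M₁)
  have hC1pos : 0 < (indep p).real C₁ := hEpos.trans_le hEC1
  -- the interval
  set m₁ : ℕ := max (max M₁ N₀) (D.sup List.length + 1) with hm₁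
  have hDlen : ∀ z ∈ D, z.length < m₁ := by
    intro z hz
    have := Finset.le_sup (f := List.length) hz
    omega
  set f : ℕ → ℝ := fun N => if P N then (W N).card * π N else 0 with hf
  have hf0 : ∀ N, 0 ≤ f N := by
    intro N
    simp only [hf]
    split_ifs
    · exact mul_nonneg (Nat.cast_nonneg _) (hπ0 N)
    · exact le_rfl
  have hf1 : ∀ N, f N ≤ 1 / 2 := by
    intro N
    simp only [hf]
    split_ifs with h
    · exact hμ N h
    · norm_num
  obtain ⟨m₂, hm12, hΛ1, hΛ2⟩ := exists_interval hf0 hf1 hsum m₁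
  set G := C m₂ with hG
  have hGd : DepO (FC m₂) G := hCd _
  have hGC : G ⊆ C₁ := hanti (by omega)
  have hdiff : (indep p).real (C₁ \ G) ≤ (1 / 1024) * (indep p).real C₁ := by
    have h1 : (indep p).real (C₁ \ G) = (indep p).real C₁ - (indep p).real G :=
      measureReal_sdiff hGC hGd.measurable
    have h2 : (indep p).real E ≤ (indep p).real G := measureReal_mono (hsub _)
    rw [h1]
    linarith
  set I : Finset ℕ := (Finset.Ico m₁ m₂).filter P with hI
  have hIm : ∀ N ∈ I, m₁ ≤ N ∧ N < m₂ ∧ P N := by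
    intro N hN
    rw [hI, Finset.mem_filter, Finset.mem_Ico] at hN
    exact ⟨hN.1.1, hN.1.2, hN.2⟩
  have hDg : ∀ N ∈ I, ∀ w ∈ W N, Disjoint D (g N w) := by
    intro N hN w hw
    rw [Finset.disjoint_left]
    intro z hz hz'
    have h1 := hDlen z hz
    have h2 := hlen N w hw z hz'
    have h3 := (hIm N hN).1
    omega
  -- the lower bound
  have hlow : ∀ N ∈ I, (W N).card * π N / 8 * (indep p).real C₁ ≤
      ∑ w ∈ W N, (indep p).real ((C₁ \ G) ∩ wit (g N w) t) := by
    intro N hN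
    obtain ⟨h1, h2, h3⟩ := hIm N hN
    refine step p hC1d hGd hGC (hπ0 N) (hsep N) (hDg N hN) (hπ N h3) (hμ N h3) ?_ (hcert N h3)
      hdiff (by norm_num)
    intro A hA
    exact hA N (Finset.mem_Ico.2 ⟨by omega, h2⟩) h3
  set J : Finset (Σ _ : ℕ, List Bool) := I.sigma W with hJ
  set T : (Σ _ : ℕ, List Bool) → Set Oracle := fun i => wit (g i.1 i.2) t with hT
  set Λ : ℝ := ∑ n ∈ Finset.Ico m₁ m₂, f n with hΛ
  have hΛI : Λ = ∑ N ∈ I, (W N).card * π N := by
    rw [hΛ, hI, Finset.sum_filter]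
  have hΛJ : ∑ i ∈ J, π i.1 = Λ := by
    rw [hJ, Finset.sum_sigma, hΛI]
    exact Finset.sum_congr rfl fun N _ => by
      dsimp only
      rw [Finset.sum_const, nsmul_eq_mul]
  have hsumlow : Λ / 8 * (indep p).real C₁ ≤ ∑ i ∈ J, (indep p).real ((C₁ \ G) ∩ T i) := by
    rw [hJ, Finset.sum_sigma, hΛI, Finset.sum_div, Finset.sum_mul]
    exact Finset.sum_le_sum hlow
  have hmom := moment (indep p) J T (fun i => (wit_dep _ _).measurable)
    (X := C₁ \ G) (C := C₁) (MeasurableSet.diff hC1d.measurable hGd.measurable) hC1d.measurable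
    Set.sdiff_subset (K := 64) (by norm_num)
  have hJm : ∀ i ∈ J, i.1 ∈ I ∧ i.2 ∈ W i.1 := fun i hi => Finset.mem_sigma.1 hi
  have hpair : ∀ i ∈ J, ∀ j ∈ J, (indep p).real (C₁ ∩ (T i ∩ T j)) ≤
      (indep p).real C₁ * (π i.1 * π j.1) + (if i = j then (indep p).real C₁ * π i.1 else 0) := by
    intro i hi j hj
    obtain ⟨hi1, hi2⟩ := hJm i hi
    obtain ⟨hj1, hj2⟩ := hJm j hj
    have hP1 := (hIm _ hi1).2.2
    have hP2 := (hIm _ hj1).2.2
    by_cases hij : i = j
    · subst hij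
      rw [if_pos rfl]
      have h1 : (indep p).real (C₁ ∩ (T i ∩ T i)) = (indep p).real C₁ * π i.1 := by
        rw [Set.inter_self, hT]
        dsimp only
        rw [real_match p hC1d t _ (hDg _ hi1 _ hi2), hπ _ hP1 _ hi2]
      rw [h1]
      have h2 : 0 ≤ (indep p).real C₁ * (π i.1 * π i.1) :=
        mul_nonneg hC1pos.le (mul_nonneg (hπ0 _) (hπ0 _))
      linarith
    · rw [if_neg hij, add_zero]
      have hdis : Disjoint (g i.1 i.2) (g j.1 j.2) := by
        by_cases h1 : i.1 = j.1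
        · obtain ⟨N, w⟩ := i
          obtain ⟨N', w'⟩ := j
          dsimp only at h1 hi2 hj2 ⊢
          subst h1
          refine hsep N w hi2 w' hj2 fun h2 => hij ?_
          rw [h2]
        · exact hoff _ _ hP1 hP2 h1 _ hi2 _ hj2
      rw [hT]
      dsimp only
      rw [pair_prob p hC1d (hDg _ hi1 _ hi2) (hDg _ hj1 _ hj2) hdis, hπ _ hP1 _ hi2,
        hπ _ hP2 _ hj2]
  have hss : ∑ i ∈ J, ∑ j ∈ J, (indep p).real (C₁ ∩ (T i ∩ T j)) ≤
      (indep p).real C₁ * (Λ * Λ) + (indep p).real C₁ * Λ := by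
    refine (Finset.sum_le_sum fun i hi => Finset.sum_le_sum fun j hj => hpair i hi j hj).trans
      (le_of_eq ?_)
    have h1 : ∀ i ∈ J, ∑ j ∈ J, ((indep p).real C₁ * (π i.1 * π j.1) +
        (if i = j then (indep p).real C₁ * π i.1 else 0)) =
        (indep p).real C₁ * (π i.1 * Λ) + (indep p).real C₁ * π i.1 := by
      intro i hi
      rw [Finset.sum_add_distrib, Finset.sum_ite_eq, if_pos hi, ← Finset.mul_sum,
        ← Finset.mul_sum, hΛJ]
    rw [Finset.sum_congr rfl h1, Finset.sum_add_distrib, ← Finset.mul_sum, ← Finset.sum_mul,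
      ← Finset.mul_sum, hΛJ]
  -- conclusion
  have hfin : Λ / 8 * (indep p).real C₁ ≤ 64 * (1 / 1024 * (indep p).real C₁) +
      ((indep p).real C₁ * (Λ * Λ) + (indep p).real C₁ * Λ) / 64 := by
    refine hsumlow.trans (hmom.trans (add_le_add (mul_le_mul_of_nonneg_left hdiff (by norm_num)) ?_))
    exact div_le_div_of_nonneg_right hss (by norm_num)
  have h1 : Λ / 8 ≤ 64 * (1 / 1024) + (Λ * Λ + Λ) / 64 := by
    have h2 : Λ / 8 * (indep p).real C₁ ≤ (64 * (1 / 1024) + (Λ * Λ + Λ) / 64) *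
        (indep p).real C₁ := by
      refine hfin.trans (le_of_eq ?_)
      ring
    exact le_of_mul_le_mul_right h2 hC1pos
  nlinarith

end Pool.Agent.TH680.BSS
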