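import Pool.Agent.TH680.BSS.Defs

/-! The behaviour on Boolean inputs: only countably many, for all fields together. -/

set_option autoImplicit false

namespace Pool.Agent.TH680.BSS

universe u v w

section

variable {F : Type u} [Field F] {K : Type v} [Field K] (φ : F →+* K) {C : Type w}

theorem bit_map (b : Bool) : φ (bit F b) = bit K b := by
  cases b <;> simp [bit]

theorem reads_map (x : ℤ → F) (w : List Bool) :
    Reads (fun z => φ (x z)) (w.map (bit K)) ↔ Reads x (w.map (bit F)) := by
  unfold Reads
  simp only [List.length_map, List.getElem_map, ← bit_map φ, ne_eq, map_eq_zero,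
    φ.injective.eq_iff]

theorem update_map (x : ℤ → F) (i : ℤ) (v : F) :
    Function.update (fun z => φ (x z)) i (φ v) = fun z => φ (Function.update x i v z) := by
  funext z
  by_cases h : z = i
  · subst h
    simp
  · simp [h]

theorem ev_map (o : Op) (x y : F) : o.ev (φ x) (φ y) = φ (o.ev x y) := by
  cases o <;> simp [Op.ev]

theorem run_map {m : ℕ} (c : C → F) (O : Bool → List Bool → Bool) (M : Fin m → Instr C m) :
    ∀ (t : ℕ) (q : Fin m) (x : ℤ → F),
      run (fun a => φ (c a)) O M t q (fun z => φ (x z)) = run c O M t q x := by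
  classical
  intro t
  induction t with
  | zero => intro q x; rfl
  | succ t ih =>
    intro q x
    rw [run, run]
    cases M q with
    | op o i j k q' => simp only [ev_map, update_map, ih]
    | const a i q' => simp only [update_map, ih]
    | copy i j q' => simp only [update_map, ih]
    | shift s q' => exact ih q' (fun z => x (z + s))
    | test i yes no =>
      simp only [ih]
      exact if_congr (map_eq_zero φ) rfl rfl
    | ask b yes no =>
      simp only [ih]
      exact if_congr (exists_congr fun w => and_congr_left' (reads_map φ x w)) rfl rfl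
    | halt b => rfl

theorem place_map (l : List F) : (fun z => φ (place l z)) = place (l.map φ) := by
  funext z
  unfold place
  split_ifs with h
  · have h1 : (l.map φ).flatMap (fun a => [1, a]) = (l.flatMap (fun a => [1, a])).map φ := by
      induction l with
      | nil => rfl
      | cons a l ih => simp [ih]
    rw [h1, List.getD_eq_getElem?_getD, List.getD_eq_getElem?_getD, List.getElem?_map]
    cases (l.flatMap (fun a => [1, a]))[(z - 1).toNat]? <;> simp
  · simp

theorem map_bit (w : List Bool) : (w.map (bit F)).map φ = w.map (bit K) := by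
  rw [List.map_map]
  exact List.map_congr_left fun b _ => bit_map φ b

end

/-! ### The constants -/

section

variable {K : Type u} [Field K]

/-- the instruction with the constants named by the nodes -/
def Instr.sh {C : Type v} {m m' : ℕ} (q : Fin m') : Instr C m → Instr (Fin m') m
  | .op o i j k q' => .op o i j k q'
  | .const _ i q' => .const q i q'
  | .copy i j q' => .copy i j q'
  | .shift s q' => .shift s q'
  | .test i yes no => .test i yes no
  | .ask b yes no => .ask b yes no
  | .halt b => .halt b

/-- the constant of an instruction -/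
def Instr.cst {m : ℕ} : Instr K m → K
  | .const a _ _ => a
  | _ => 0

theorem run_sh {m : ℕ} (M : Fin m → Instr K m) (O : Bool → List Bool → Bool) : ∀ (t : ℕ)
    (q : Fin m) (x : ℤ → K),
    run (fun q => (M q).cst) O (fun q => (M q).sh q) t q x = run id O M t q x := by
  classical
  intro t
  induction t with
  | zero => intro q x; rfl
  | succ t ih =>
    intro q x
    rw [run, run]
    cases hq : M q with
    | op o i j k q' => exact ih _ _
    | const a i q' =>
      simp only [Instr.sh, hq, Instr.cst, id]
      exact ih _ _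
    | copy i j q' => exact ih _ _
    | shift s q' => exact ih _ _
    | test i yes no => exact if_congr Iff.rfl (ih _ _) (ih _ _)
    | ask b yes no => exact if_congr Iff.rfl (ih _ _) (ih _ _)
    | halt b => rfl

/-- the field generated by the constants, up to isomorphism -/
def Can (k : ℕ) (I : PrimeSpectrum (MvPolynomial (Fin k) ℤ)) : Type :=
  FractionRing (MvPolynomial (Fin k) ℤ ⧸ I.asIdeal)

noncomputable instance (k : ℕ) (I : PrimeSpectrum (MvPolynomial (Fin k) ℤ)) : Field (Can k I) :=
  inferInstanceAs (Field (FractionRing (MvPolynomial (Fin k) ℤ ⧸ I.asIdeal)))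

noncomputable instance (k : ℕ) (I : PrimeSpectrum (MvPolynomial (Fin k) ℤ)) :
    Algebra (MvPolynomial (Fin k) ℤ ⧸ I.asIdeal) (Can k I) :=
  inferInstanceAs (Algebra (MvPolynomial (Fin k) ℤ ⧸ I.asIdeal)
    (FractionRing (MvPolynomial (Fin k) ℤ ⧸ I.asIdeal)))

instance (k : ℕ) (I : PrimeSpectrum (MvPolynomial (Fin k) ℤ)) :
    IsFractionRing (MvPolynomial (Fin k) ℤ ⧸ I.asIdeal) (Can k I) :=
  inferInstanceAs (IsFractionRing (MvPolynomial (Fin k) ℤ ⧸ I.asIdeal)
    (FractionRing (MvPolynomial (Fin k) ℤ ⧸ I.asIdeal)))

/-- the constants -/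
noncomputable def gen (k : ℕ) (I : PrimeSpectrum (MvPolynomial (Fin k) ℤ)) (i : Fin k) :
    Can k I :=
  algebraMap (MvPolynomial (Fin k) ℤ ⧸ I.asIdeal) (Can k I)
    (Ideal.Quotient.mk I.asIdeal (MvPolynomial.X i))

theorem exists_lift {k : ℕ} (I : PrimeSpectrum (MvPolynomial (Fin k) ℤ))
    (g : MvPolynomial (Fin k) ℤ ⧸ I.asIdeal →+* K) (hg : Function.Injective g) :
    ∃ φ : Can k I →+* K, ∀ a, φ (algebraMap _ (Can k I) a) = g a :=
  ⟨IsFractionRing.lift (K := Can k I) hg, fun a => IsFractionRing.lift_algebraMap hg a⟩

theorem exists_can {k : ℕ} (c : Fin k → K) : ∃ (I : PrimeSpectrum (MvPolynomial (Fin k) ℤ))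
    (φ : Can k I →+* K), ∀ i, φ (gen k I i) = c i := by
  set ev : MvPolynomial (Fin k) ℤ →+* K := MvPolynomial.eval₂Hom (Int.castRingHom K) c with hev
  obtain ⟨φ, hφ⟩ := exists_lift ⟨RingHom.ker ev, RingHom.ker_isPrime ev⟩ (RingHom.kerLift ev)
    (RingHom.kerLift_injective ev)
  refine ⟨_, φ, fun i => ?_⟩
  have h1 := RingHom.kerLift_mk ev (MvPolynomial.X i)
  rw [hev, MvPolynomial.eval₂Hom_X'] at h1
  unfold gen
  rw [hφ]
  exact h1

/-- the behaviour on Boolean inputs -/
theorem exists_code (M : Machine K) : ∃ (k m : ℕ) (S : Fin (m + 1) → Instr (Fin k) (m + 1))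
    (I : PrimeSpectrum (MvPolynomial (Fin k) ℤ)), ∀ (Q A : List Bool → Bool) (t : ℕ)
      (w : List Bool), M.answer Q A t (w.map (bit K)) =
        run (gen k I) (two Q A) S t 0 (place (w.map (bit (Can k I)))) := by
  obtain ⟨I, φ, hφ⟩ := exists_can (fun q => (M.prog q).cst)
  refine ⟨M.m + 1, M.m, fun q => (M.prog q).sh q, I, fun Q A t w => ?_⟩
  rw [Machine.answer, ← run_sh, ← map_bit φ, ← place_map φ, ← run_map φ (gen (M.m + 1) I)]
  simp only [hφ]

end

/-! ### Countability -/

deriving instance Countable for Op
deriving instance Countable for Instr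

instance (k : ℕ) : Countable (MvPolynomial (Fin k) ℤ) := by
  rw [← Cardinal.mk_le_aleph0_iff]
  refine MvPolynomial.cardinalMk_le_max.trans ?_
  simp

instance (k : ℕ) : Countable (Ideal (MvPolynomial (Fin k) ℤ)) := by
  refine Function.Surjective.countable (α := Finset (MvPolynomial (Fin k) ℤ))
    (f := fun S => Ideal.span (S : Set (MvPolynomial (Fin k) ℤ))) ?_
  intro I
  obtain ⟨S, hS⟩ := IsNoetherian.noetherian I
  exact ⟨S, hS⟩

instance (k : ℕ) : Countable (PrimeSpectrum (MvPolynomial (Fin k) ℤ)) := by
  refine Function.Injective.countable (f := fun I => I.asIdeal) ?_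
  intro I J h
  exact PrimeSpectrum.ext h

end Pool.Agent.TH680.BSS
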