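import Pool.Agent.TH680.BSS.Ver
import Pool.Agent.TH680.BSS.Hom
import Pool.Agent.TH680.BSS.Engine
import Pool.Agent.TH680.SE.Par
import Pool.Agent.H620R2.GaugeX.X9

/-! The separation, for almost every oracle and all fields. -/

set_option autoImplicit false

namespace Pool.Agent.TH680.BSS

open MeasureTheory Pool.Agent.W900.IE Pool.Agent.W900.PS Pool.Agent.W900 Pool.Agent.TH680.SE
  Pool.Agent.H620R2.Gauge Pool.Agent.H591R3.PHG

universe u v w

/-- the probability `1 / 2` -/
noncomputable def half : unitInterval := ⟨1 / 2, by norm_num, by norm_num⟩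

/-- the sizes of the instances which are used -/
def Pw (N : ℕ) : Prop := ∃ k : ℕ, N = 3 ^ k

theorem Pw.pos {N : ℕ} (h : Pw N) : 1 ≤ N := by
  obtain ⟨k, rfl⟩ := h
  exact Nat.one_le_pow _ _ (by norm_num)

theorem mem_grp {N : ℕ} {w z : List Bool} (h : z ∈ grp N w) (hw : w.length = N) :
    N ≤ z.length ∧ z.length ≤ 2 * N := by
  rw [grp, Finset.mem_insert, Finset.mem_image] at h
  rcases h with rfl | ⟨i, hi, rfl⟩
  · omega
  · rw [Finset.mem_range] at hi
    simp only [List.length_append, List.length_replicate, List.length_cons]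
    omega

theorem grp_disj {N : ℕ} {w w' : List Bool} (hw : w.length = N) (hw' : w'.length = N)
    (hne : w ≠ w') : Disjoint (grp N w) (grp N w') := by
  rw [Finset.disjoint_left]
  intro z hz hz'
  apply hne
  rw [grp, Finset.mem_insert, Finset.mem_image] at hz hz'
  rcases hz with rfl | ⟨i, hi, rfl⟩
  · rcases hz' with h | ⟨j, hj, h⟩
    · exact h
    · have := congrArg List.length h
      simp only [List.length_append, List.length_replicate, List.length_cons] at this
      omega
  · rcases hz' with h | ⟨j, hj, h⟩
    · have := congrArg List.length h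
      simp only [List.length_append, List.length_replicate, List.length_cons] at this
      omega
    · have h1 := congrArg List.length h
      simp only [List.length_append, List.length_replicate, List.length_cons] at h1
      obtain rfl : i = j := by omega
      have h2 := List.append_cancel_left h
      exact (List.cons_injective h2).symm

theorem card_grp {N : ℕ} {w : List Bool} : (grp N w).card = N + 1 := by
  rw [grp, Finset.card_insert_of_notMem, Finset.card_image_of_injective, Finset.card_range]
  · intro i j h
    have h1 := congrArg List.length h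
    simp only [List.length_append, List.length_replicate, List.length_cons] at h1
    omega
  · rw [Finset.mem_image]
    rintro ⟨i, _, h⟩
    have := congrArg List.length h
    simp only [List.length_append, List.length_replicate, List.length_cons] at this
    omega

open Classical in
theorem ae_code {k m : ℕ} (S : Fin (m + 1) → Instr (Fin k) (m + 1))
    (I : PrimeSpectrum (MvPolynomial (Fin k) ℤ)) (Q : List Bool → Bool) :
    ∀ᵐ A ∂(indep (fun _ => half)), ∃ᶠ N in Filter.atTop, Pw N ∧
      ¬ (run (gen k I) (two Q A) S (2 ^ (N - 1)) 0 (place ((ins N).map (bit (Can k I)))) =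
        some false ↔ ∀ w : List Bool, w.length = N → ¬ ∀ z ∈ grp N w, A z = true) := by
  have h := engine2 (fun _ => half) (P := Pw) (W := fun N => DT.strs N) (g := grp)
    (t := fun _ => true)
    (Acc := fun N => {A | run (gen k I) (two Q A) S (2 ^ (N - 1)) 0
      (place ((ins N).map (bit (Can k I)))) = some false})
    (π := fun N => (1 / 2) ^ (N + 1)) (fun N => by positivity)
    (fun N w hw w' hw' hne => grp_disj (DT.mem_strs.1 hw) (DT.mem_strs.1 hw') hne)
    (fun N w hw z hz => (mem_grp hz (DT.mem_strs.1 hw)).1)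
    (by
      intro N N' hN hN' hne w hw w' hw'
      rw [Finset.disjoint_left]
      intro z hz hz'
      have h1 := mem_grp hz (DT.mem_strs.1 hw)
      have h2 := mem_grp hz' (DT.mem_strs.1 hw')
      obtain ⟨a, rfl⟩ := hN
      obtain ⟨b, rfl⟩ := hN'
      rcases lt_trichotomy a b with h3 | rfl | h3
      · have h4 : 3 ^ (a + 1) ≤ 3 ^ b := Nat.pow_le_pow_right (by norm_num) h3
        have h5 : 0 < 3 ^ a := by positivity
        rw [pow_succ] at h4
        omega
      · exact hne rfl
      · have h4 : 3 ^ (b + 1) ≤ 3 ^ a := Nat.pow_le_pow_right (by norm_num) h3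
        have h5 : 0 < 3 ^ b := by positivity
        rw [pow_succ] at h4
        omega)
    (by
      intro N _ w hw
      have h1 : ∀ z ∈ grp N w, ber ((half : unitInterval) : ℝ) true = 1 / 2 := by
        intro z _
        simp [ber, half]
      rw [Finset.prod_congr rfl h1, Finset.prod_const, card_grp])
    (by
      intro N _
      rw [card_strs]
      push_cast
      rw [pow_succ, ← mul_assoc, ← mul_pow]
      norm_num)
    (by
      intro hs
      have h1 := hs.tendsto_atTop_zero
      have h2 := (h1.comp (tendsto_pow_atTop_atTop_of_one_lt (by norm_num : 1 < 3))).eventually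
        (gt_mem_nhds (show (0 : ℝ) < 1 / 4 by norm_num))
      obtain ⟨k, hk⟩ := h2.exists
      simp only [Function.comp] at hk
      rw [if_pos ⟨k, rfl⟩, card_strs] at hk
      push_cast at hk
      rw [pow_succ, ← mul_assoc, ← mul_pow] at hk
      norm_num at hk)
    (by
      intro N
      obtain ⟨F, hF⟩ := run_dep (gen k I) S Q (2 ^ (N - 1)) 0
        (place ((ins N).map (bit (Can k I))))
      refine ⟨F, fun A A' hA h1 => ?_⟩
      rw [Set.mem_ofPred_eq] at h1 ⊢
      rw [← hF A A' hA]
      exact h1)
    (by
      intro N hN A hA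
      obtain ⟨T, hT, h1⟩ := run_local (gen k I) S Q A (2 ^ (N - 1)) 0
        (place ((ins N).map (bit (Can k I))))
      refine ⟨T, ?_, fun A' hA' => ?_⟩
      · rw [card_strs]
        have h2 := hN.pos
        have h3 : 2 * 2 ^ (N - 1) = 2 ^ N := by
          rw [← pow_succ']
          congr 1
          omega
        omega
      · rw [Set.mem_ofPred_eq] at hA ⊢
        rw [h1 A' hA']
        exact hA)
  filter_upwards [h] with A hA
  refine hA.mono fun N hN => ⟨hN.1, fun hcon => hN.2 ?_⟩
  rw [hcon]
  constructor
  · intro h1 w hw h2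
    exact h1 w (DT.mem_strs.1 hw) h2
  · intro h1 w hw h2
    exact h1 w (DT.mem_strs.2 hw) h2

/-- **The separation.** -/
theorem ae_sep (Q : List Bool → Bool) : ∀ᵐ A ∂(indep (fun _ => half)),
    ∀ (K : Type u) [Field K] (M : Machine K) (n₀ : ℕ),
      ¬ Decides M Q A (fun n => 2 ^ (n - 1)) n₀ (lang K A) := by
  have h : ∀ᵐ A ∂(indep (fun _ => half)), ∀ (k m : ℕ)
      (S : Fin (m + 1) → Instr (Fin k) (m + 1)) (I : PrimeSpectrum (MvPolynomial (Fin k) ℤ)),
      ∃ᶠ N in Filter.atTop, Pw N ∧
        ¬ (run (gen k I) (two Q A) S (2 ^ (N - 1)) 0 (place ((ins N).map (bit (Can k I)))) =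
          some false ↔ ∀ w : List Bool, w.length = N → ¬ ∀ z ∈ grp N w, A z = true) := by
    rw [ae_all_iff]
    intro k
    rw [ae_all_iff]
    intro m
    rw [ae_all_iff]
    intro S
    rw [ae_all_iff]
    intro I
    exact ae_code S I Q
  filter_upwards [h] with A hA
  intro K _ M n₀ hM
  obtain ⟨k, m, S, I, hS⟩ := exists_code M
  obtain ⟨N, ⟨hN, h1⟩, hN0⟩ := ((hA k m S I).and_eventually
    (Filter.eventually_ge_atTop n₀)).exists
  apply h1
  have hl := length_ins hN.pos
  obtain ⟨b, h2, h3⟩ := hM ((ins N).map (bit K)) (by rw [List.length_map, hl]; exact hN0)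
  rw [List.length_map, hl, hS] at h2
  rw [h2, Option.some.injEq]
  have h4 : b = false ↔ ¬ (b = true) := by cases b <;> simp
  rw [h4, h3, ins_mem A hN.pos]
  push Not
  rfl

theorem exists_pow_le (p : Polynomial ℕ) : ∃ n₀ : ℕ, ∀ n, n₀ ≤ n → p.eval n ≤ 2 ^ (n - 1) := by
  obtain ⟨n₀, hn₀⟩ := X9.exists_n0 (2 * p)
  refine ⟨n₀ + 1, fun n hn => ?_⟩
  have h1 := hn₀ n (by omega)
  have h2 : 2 * 2 ^ (n - 1) = 2 ^ n := by
    rw [← pow_succ']
    congr 1
    omega
  simp only [Polynomial.eval_mul, Polynomial.eval_ofNat] at h1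
  omega

end Pool.Agent.TH680.BSS
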