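import Pool.Agent.TH680.BSS.Law

/-! Nondeterministic machines over algebraically closed fields: countably many behaviours. -/

set_option autoImplicit false

namespace Pool.Agent.TH680.BSS

universe u v w

section

variable {K : Type u} [Field K] {B : Type u} [CommRing B] {ι : B →+* K} {L : Type v} [Field L]
  {θ : B →+* L}

theorem zero_iff (hι : Function.Injective ι) {b : B} (h : ∃ b', ι b' = (ι b)⁻¹) :
    θ b = 0 ↔ ι b = 0 := by
  constructor
  · intro h0
    by_contra hb
    obtain ⟨b', hb'⟩ := h
    have h1 : b * b' = 1 := hι (by rw [map_mul, hb', mul_inv_cancel₀ hb, map_one])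
    have h2 := congrArg θ h1
    rw [map_mul, h0, zero_mul, map_one] at h2
    exact zero_ne_one h2
  · intro h0
    rw [hι (h0.trans ι.map_zero.symm), map_zero]

theorem ev_sub (hι : Function.Injective ι) (o : Op) (a : B) {b : B} (h : ∃ b', ι b' = (ι b)⁻¹) :
    ∃ d : B, ι d = o.ev (ι a) (ι b) ∧ θ d = o.ev (θ a) (θ b) := by
  cases o with
  | add => exact ⟨a + b, map_add _ _ _, map_add _ _ _⟩
  | sub => exact ⟨a - b, map_sub _ _ _, map_sub _ _ _⟩
  | mul => exact ⟨a * b, map_mul _ _ _, map_mul _ _ _⟩
  | div =>
    have hz := zero_iff (θ := θ) hι h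
    obtain ⟨b', hb'⟩ := h
    refine ⟨a * b', by rw [map_mul, hb', ← div_eq_mul_inv]; rfl, ?_⟩
    show θ (a * b') = θ a / θ b
    by_cases hb : ι b = 0
    · have h1 : b' = 0 := hι (by rw [hb', hb, inv_zero, map_zero])
      rw [h1, mul_zero, map_zero, hz.2 hb, div_zero]
    · have h1 : b * b' = 1 := hι (by rw [map_mul, hb', mul_inv_cancel₀ hb, map_one])
      have h2 := congrArg θ h1
      rw [map_mul, map_one] at h2
      rw [map_mul, eq_inv_of_mul_eq_one_right h2, ← div_eq_mul_inv]

theorem bit_sub (hι : Function.Injective ι) {v : B} (b : Bool) (h : ∃ b', ι b' = (ι v)⁻¹)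
    (h' : ∃ b', ι b' = (ι v - 1)⁻¹) : θ v = bit L b ↔ ι v = bit K b := by
  cases b with
  | false =>
    simp only [bit, Bool.false_eq_true, if_false]
    exact zero_iff hι h
  | true =>
    simp only [bit, if_true]
    rw [← sub_eq_zero, ← sub_eq_zero (b := (1 : K)), ← map_one θ, ← map_one ι, ← map_sub,
      ← map_sub]
    refine zero_iff hι ?_
    rwa [map_sub, map_one]

theorem reads_sub (hι : Function.Injective ι) (x : ℤ → B) (h : ∀ z, ∃ b', ι b' = (ι (x z))⁻¹)
    (h' : ∀ z, ∃ b', ι b' = (ι (x z) - 1)⁻¹) (w : List Bool) :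
    Reads (fun z => θ (x z)) (w.map (bit L)) ↔ Reads (fun z => ι (x z)) (w.map (bit K)) := by
  unfold Reads
  simp only [List.length_map, List.getElem_map, ne_eq, zero_iff (θ := θ) hι (h _),
    bit_sub (θ := θ) hι _ (h _) (h' _)]

omit [Field K] in
theorem finite_update {x : ℤ → K} (hx : (Set.range x).Finite) (i : ℤ) (v : K) :
    (Set.range (Function.update x i v)).Finite := by
  refine (hx.insert v).subset ?_
  rintro _ ⟨z, rfl⟩
  by_cases h : z = i
  · subst h
    simp
  · rw [Function.update_of_ne h]
    exact Set.mem_insert_of_mem _ ⟨z, rfl⟩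

theorem update_sub {R : Type u} {R' : Type v} (f : R → R') (x : ℤ → R) (i : ℤ) (v : R) :
    (fun z => f (Function.update x i v z)) = Function.update (fun z => f (x z)) i (f v) := by
  funext z
  by_cases h : z = i
  · subst h
    simp
  · simp [h]

end

variable {K : Type u} [Field K] {C : Type w}

/-- A run is not changed by a homomorphism from a ring which contains the entries and the inverses
of finitely many elements. -/
theorem exists_good {m : ℕ} (c : C → K) (O : Bool → List Bool → Bool) (M : Fin m → Instr C m) :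
    ∀ (t : ℕ) (q : Fin m) (x : ℤ → K), (Set.range x).Finite → ∃ E : Set K, E.Finite ∧
      ∀ (B : Type u) [CommRing B] (ι : B →+* K), Function.Injective ι →
        (∀ e ∈ E, ∃ b, ι b = e⁻¹) → ∀ (L : Type v) [Field L] (θ : B →+* L) (x' : ℤ → B)
        (c' : C → B), (∀ z, ι (x' z) = x z) → (∀ a, ι (c' a) = c a) →
        run (fun a => θ (c' a)) O M t q (fun z => θ (x' z)) = run c O M t q x := by
  classical
  intro t
  induction t with
  | zero =>
    intro q x _
    exact ⟨∅, Set.finite_empty, fun _ _ _ _ _ _ _ _ _ _ _ _ => rfl⟩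
  | succ t ih =>
    intro q x hx
    simp only [run]
    cases hq : M q with
    | op o i j k q' =>
      obtain ⟨E, hE, h⟩ := ih q' (Function.update x i (o.ev (x j) (x k))) (finite_update hx _ _)
      refine ⟨E ∪ Set.range x, hE.union hx, ?_⟩
      intro B _ ι hι hB L _ θ x' c' hx' hc'
      obtain ⟨d, hd, hd'⟩ := ev_sub (θ := θ) hι o (x' j) (b := x' k) (by
        rw [hx']
        exact hB _ (Or.inr ⟨k, rfl⟩))
      have h1 := h B ι hι (fun e he => hB e (Or.inl he)) L θ (Function.update x' i d) c'
        (fun z => by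
          have h2 := congrFun (update_sub ι x' i d) z
          rw [h2, hd, hx', hx']
          simp only [hx']) hc'
      rw [update_sub, hd'] at h1
      exact h1
    | const a i q' =>
      obtain ⟨E, hE, h⟩ := ih q' (Function.update x i (c a)) (finite_update hx _ _)
      refine ⟨E, hE, ?_⟩
      intro B _ ι hι hB L _ θ x' c' hx' hc'
      have h1 := h B ι hι hB L θ (Function.update x' i (c' a)) c'
        (fun z => by
          have h2 := congrFun (update_sub ι x' i (c' a)) z
          rw [h2, hc']
          simp only [hx']) hc'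
      rw [update_sub] at h1
      exact h1
    | copy i j q' =>
      obtain ⟨E, hE, h⟩ := ih q' (Function.update x i (x j)) (finite_update hx _ _)
      refine ⟨E, hE, ?_⟩
      intro B _ ι hι hB L _ θ x' c' hx' hc'
      have h1 := h B ι hι hB L θ (Function.update x' i (x' j)) c'
        (fun z => by
          have h2 := congrFun (update_sub ι x' i (x' j)) z
          rw [h2]
          simp only [hx']) hc'
      rw [update_sub] at h1
      exact h1
    | shift s q' =>
      obtain ⟨E, hE, h⟩ := ih q' (fun z => x (z + s)) (hx.subset (by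
        rintro _ ⟨z, rfl⟩
        exact ⟨z + s, rfl⟩))
      refine ⟨E, hE, ?_⟩
      intro B _ ι hι hB L _ θ x' c' hx' hc'
      exact h B ι hι hB L θ (fun z => x' (z + s)) c' (fun z => hx' _) hc'
    | test i yes no =>
      obtain ⟨E, hE, h⟩ := ih yes x hx
      obtain ⟨E', hE', h'⟩ := ih no x hx
      refine ⟨E ∪ (E' ∪ Set.range x), hE.union (hE'.union hx), ?_⟩
      intro B _ ι hι hB L _ θ x' c' hx' hc'
      have h1 := h B ι hι (fun e he => hB e (Or.inl he)) L θ x' c' hx' hc'
      have h2 := h' B ι hι (fun e he => hB e (Or.inr (Or.inl he))) L θ x' c' hx' hc'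
      refine if_congr ?_ h1 h2
      rw [zero_iff hι (by
        rw [hx']
        exact hB _ (Or.inr (Or.inr ⟨i, rfl⟩))), hx']
    | ask b yes no =>
      obtain ⟨E, hE, h⟩ := ih yes x hx
      obtain ⟨E', hE', h'⟩ := ih no x hx
      refine ⟨(E ∪ E') ∪ (Set.range x ∪ (fun a => a - 1) '' Set.range x),
        (hE.union hE').union (hx.union (hx.image _)), ?_⟩
      intro B _ ι hι hB L _ θ x' c' hx' hc'
      have h1 := h B ι hι (fun e he => hB e (Or.inl (Or.inl he))) L θ x' c' hx' hc'
      have h2 := h' B ι hι (fun e he => hB e (Or.inl (Or.inr he))) L θ x' c' hx' hc'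
      refine if_congr (exists_congr fun w => and_congr_left' ?_) h1 h2
      rw [reads_sub (ι := ι) hι x' (fun z => by
        rw [hx']
        exact hB _ (Or.inr (Or.inl ⟨z, rfl⟩))) (fun z => by
        rw [hx']
        exact hB _ (Or.inr (Or.inr ⟨x z, ⟨z, rfl⟩, rfl⟩)))]
      simp only [hx']
    | halt b =>
      exact ⟨∅, Set.finite_empty, fun _ _ _ _ _ _ _ _ _ _ _ _ => rfl⟩

/-! ### Specialization -/

theorem exists_list {α : Type u} {β : Type v} (f : α → β) (l : List β)
    (h : ∀ a ∈ l, ∃ b, f b = a) : ∃ l' : List α, l'.map f = l := by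
  induction l with
  | nil => exact ⟨[], rfl⟩
  | cons a l ih =>
    obtain ⟨b, hb⟩ := h a (List.mem_cons_self)
    obtain ⟨l', hl⟩ := ih fun a' ha' => h a' (List.mem_cons_of_mem _ ha')
    exact ⟨b :: l', by rw [List.map_cons, hb, hl]⟩

/-- the sequence over a ring -/
def placeB {B : Type v} [CommRing B] (l : List B) (z : ℤ) : B :=
  if 1 ≤ z then (l.flatMap (fun a => [1, a])).getD (z - 1).toNat 0 else 0

theorem place_hom {B : Type v} [CommRing B] (f : B →+* K) (l : List B) (z : ℤ) :
    f (placeB l z) = place (l.map f) z := by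
  unfold place placeB
  split_ifs with h
  · have h1 : (l.map f).flatMap (fun a => [1, a]) = (l.flatMap (fun a => [1, a])).map f := by
      induction l with
      | nil => rfl
      | cons a l ih => simp [ih]
    rw [h1, List.getD_eq_getElem?_getD, List.getD_eq_getElem?_getD, List.getElem?_map]
    cases (l.flatMap (fun a => [1, a]))[(z - 1).toNat]? <;> simp
  · simp

theorem finite_place (l : List K) : (Set.range (place l)).Finite := by
  refine ((List.finite_toSet (l.flatMap (fun a => [1, a]))).insert 0).subset ?_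
  rintro _ ⟨z, rfl⟩
  unfold place
  split_ifs
  · rw [List.getD_eq_getElem?_getD]
    cases h : (l.flatMap (fun a => [1, a]))[(z - 1).toNat]? with
    | none => exact Set.mem_insert _ _
    | some a =>
      exact Set.mem_insert_of_mem _ (List.mem_of_getElem? h)
  · exact Set.mem_insert _ _

theorem exists_down {F : Type} [Field F] [Algebra F K] (c : C → F) {m : ℕ}
    (O : Bool → List Bool → Bool) (M : Fin m → Instr C m) (t : ℕ) (q : Fin m) (w : List Bool)
    (y : List K) (h : run (fun a => algebraMap F K (c a)) O M t q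
      (place (w.map (bit K) ++ y)) = some true) :
    ∃ y' : List (AlgebraicClosure F), y'.length = y.length ∧
      run (fun a => algebraMap F (AlgebraicClosure F) (c a)) O M t q
        (place (w.map (bit (AlgebraicClosure F)) ++ y')) = some true := by
  obtain ⟨E, hE, hgood⟩ := exists_good (fun a => algebraMap F K (c a)) O M t q
    (place (w.map (bit K) ++ y)) (finite_place _)
  set s : Set K := (fun e => e⁻¹) '' E ∪ {a | a ∈ y} with hs
  have hsf : s.Finite := (hE.image _).union (List.finite_toSet y)
  set B : Subalgebra F K := Algebra.adjoin F s with hB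
  have hft : Algebra.FiniteType F B := by
    rw [← Subalgebra.fg_iff_finiteType]
    exact ⟨hsf.toFinset, by rw [Set.Finite.coe_toFinset]⟩
  obtain ⟨I, hI⟩ := Ideal.exists_maximal B
  let : Field (B ⧸ I) := Ideal.Quotient.field I
  have hft' : Algebra.FiniteType F (B ⧸ I) :=
    hft.of_surjective (Ideal.Quotient.mkₐ F I) (Ideal.Quotient.mkₐ_surjective F I)
  have : Module.Finite F (B ⧸ I) := finite_of_finite_type_of_isJacobsonRing F (B ⧸ I)
  have : Algebra.IsAlgebraic F (B ⧸ I) := Algebra.IsAlgebraic.of_finite F _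
  let ψ : (B ⧸ I) →ₐ[F] AlgebraicClosure F := IsAlgClosed.lift
  let θ : B →ₐ[F] AlgebraicClosure F := ψ.comp (Ideal.Quotient.mkₐ F I)
  obtain ⟨yB, hyB⟩ := exists_list B.val.toRingHom y fun a ha =>
    ⟨⟨a, Algebra.subset_adjoin (Or.inr ha)⟩, rfl⟩
  refine ⟨yB.map θ.toRingHom, by rw [← hyB]; simp, ?_⟩
  rw [← h]
  set bB : Bool → B := fun b => if b then 1 else 0 with hbB
  have hb1 : ∀ b, B.val.toRingHom (bB b) = bit K b := fun b => by
    cases b
    · simp [hbB, bit]
    · simp [hbB, bit]
  have hb2 : ∀ b, θ.toRingHom (bB b) = bit (AlgebraicClosure F) b := fun b => by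
    cases b
    · simp only [hbB, bit, Bool.false_eq_true, if_false]
      exact map_zero θ.toRingHom
    · simp only [hbB, bit, if_true]
      exact map_one θ.toRingHom
  have e1 : (w.map bB ++ yB).map B.val.toRingHom = w.map (bit K) ++ y := by
    rw [List.map_append, hyB, List.map_map]
    congr 1
    exact List.map_congr_left fun b _ => hb1 b
  have e2 : (w.map bB ++ yB).map θ.toRingHom =
      w.map (bit (AlgebraicClosure F)) ++ yB.map θ.toRingHom := by
    rw [List.map_append, List.map_map]
    congr 1
    exact List.map_congr_left fun b _ => hb2 b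
  have h1 := hgood B B.val.toRingHom Subtype.val_injective
    (fun e he => ⟨⟨e⁻¹, Algebra.subset_adjoin (Or.inl ⟨e, he, rfl⟩)⟩, rfl⟩)
    (AlgebraicClosure F) θ.toRingHom (placeB (w.map bB ++ yB)) (fun a => algebraMap F B (c a))
    (fun z => by rw [place_hom, e1]) (fun a => rfl)
  rw [← h1]
  simp only [place_hom, e2]
  congr 1
  funext a
  exact (θ.commutes (c a)).symm

end Pool.Agent.TH680.BSS
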