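import Mathlib

/-!
# Blum-Shub-Smale machines with Boolean oracles

The machines work on a two-sided infinite sequence of elements of a field `K`.  A vector
`(a₁, ..., aₙ)` is written as `1, a₁, 1, a₂, ..., 1, aₙ, 0` at the places `1, 2, ...`.
-/

set_option autoImplicit false

namespace Pool.Agent.TH680.BSS

universe u v w

/-- The field operations (`x / 0 = 0`). -/
inductive Op
  | add | sub | mul | div

/-- The value of an operation. -/
def Op.ev {K : Type u} [Field K] : Op → K → K → K
  | .add, x, y => x + y
  | .sub, x, y => x - y
  | .mul, x, y => x * y
  | .div, x, y => x / y

/-- The instructions at the `m` nodes of a machine; the constants are named by the elements of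
`C`. -/
inductive Instr (C : Type v) (m : ℕ)
  /-- entry `i` := entry `j` ∘ entry `k` -/
  | op (o : Op) (i j k : ℤ) (next : Fin m)
  /-- entry `i` := `c` -/
  | const (c : C) (i : ℤ) (next : Fin m)
  /-- entry `i` := entry `j` -/
  | copy (i j : ℤ) (next : Fin m)
  /-- the sequence is shifted by `s` places -/
  | shift (s : ℤ) (next : Fin m)
  /-- branch: is entry `i` equal to `0`? -/
  | test (i : ℤ) (yes no : Fin m)
  /-- branch: is the vector written at the places `1, 2, ...` a Boolean string in the first
  (`b = false`) or second (`b = true`) oracle? -/
  | ask (b : Bool) (yes no : Fin m)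
  /-- output -/
  | halt (answer : Bool)

/-- A machine with constants named by the elements of `C`: finitely many nodes, the first one is
the initial node. -/
structure Machine (C : Type v) where
  /-- the number of the nodes minus one -/
  m : ℕ
  /-- program -/
  prog : Fin (m + 1) → Instr C (m + 1)

/-- The bits as elements of `K`. -/
def bit (K : Type u) [Field K] (b : Bool) : K := if b then 1 else 0

/-- The vector `l` is written in the sequence `x` at the places `1, 2, ...`. -/
def Reads {K : Type u} [Field K] (x : ℤ → K) (l : List K) : Prop :=
  (∀ (i : ℕ) (h : i < l.length), x (2 * i + 1) ≠ 0 ∧ x (2 * i + 2) = l[i]) ∧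
    x (2 * l.length + 1) = 0

/-- The sequence which contains the vector `l`, and `0` at all other places. -/
def place {K : Type u} [Field K] (l : List K) (z : ℤ) : K :=
  if 1 ≤ z then (l.flatMap (fun a => [1, a])).getD (z - 1).toNat 0 else 0

section

variable {K : Type u} [Field K] {C : Type v}

/-- The pair of two oracles. -/
def two (Q A : List Bool → Bool) (b : Bool) : List Bool → Bool := if b then A else Q

/-- The answer of the program `M` started at node `q` on the sequence `x`, if an output node is
reached after traversing at most `t` nodes (the output node included); `c` gives the values of the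
constants, `O` the oracles. -/
noncomputable def run {m : ℕ} (c : C → K) (O : Bool → List Bool → Bool)
    (M : Fin m → Instr C m) : ℕ → Fin m → (ℤ → K) → Option Bool
  | 0, _, _ => none
  | t + 1, q, x => by
      classical
      exact match M q with
      | .op o i j k q' => run c O M t q' (Function.update x i (o.ev (x j) (x k)))
      | .const a i q' => run c O M t q' (Function.update x i (c a))
      | .copy i j q' => run c O M t q' (Function.update x i (x j))
      | .shift s q' => run c O M t q' (fun z => x (z + s))
      | .test i yes no => if x i = 0 then run c O M t yes x else run c O M t no x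
      | .ask b yes no =>
          if ∃ w : List Bool, Reads x (w.map (bit K)) ∧ O b w = true then run c O M t yes x
          else run c O M t no x
      | .halt b => some b

end

/-- The answer of a machine with constants from `K` on the input `l`, if it halts after traversing
at most `t` nodes, relative to the oracles `Q` and `A`. -/
noncomputable def Machine.answer {K : Type u} [Field K] (M : Machine K) (Q A : List Bool → Bool)
    (t : ℕ) (l : List K) : Option Bool :=
  run id (two Q A) M.prog t 0 (place l)

/-- The machine `M` decides membership in `L` for the inputs of size at least `n₀`, in time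
`t`. -/
def Decides {K : Type u} [Field K] (M : Machine K) (Q A : List Bool → Bool) (t : ℕ → ℕ) (n₀ : ℕ)
    (L : Set (List K)) : Prop :=
  ∀ x : List K, n₀ ≤ x.length → ∃ b : Bool, M.answer Q A (t x.length) x = some b ∧
    (b = true ↔ x ∈ L)

/-- The class `P` over `K`, relative to the oracles `Q` and `A`. -/
def InP {K : Type u} [Field K] (Q A : List Bool → Bool) (L : Set (List K)) : Prop :=
  ∃ (M : Machine K) (p : Polynomial ℕ), Decides M Q A (fun n => p.eval n) 0 L

/-- The class `NP` over `K`, relative to the oracles `Q` and `A`. -/
def InNP {K : Type u} [Field K] (Q A : List Bool → Bool) (L : Set (List K)) : Prop :=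
  ∃ (M : Machine K) (q p : Polynomial ℕ),
    (∀ z : List K, ∃ b : Bool, M.answer Q A (p.eval z.length) z = some b) ∧
    ∀ x : List K, x ∈ L ↔ ∃ y : List K, y.length = q.eval x.length ∧
      M.answer Q A (p.eval (x ++ y).length) (x ++ y) = some true

end Pool.Agent.TH680.BSS
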