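import Pool.Agent.TH680.BSS.Acf

/-! Nondeterministic machines over algebraically closed fields, relative to almost every oracle. -/

set_option autoImplicit false

namespace Pool.Agent.TH680.BSS

open MeasureTheory Pool.Agent.W900.IE Pool.Agent.W900.PS Pool.Agent.W900 Pool.Agent.TH680.SE
  Pool.Agent.H620R2.Gauge Pool.Agent.H591R3.PHG

universe u v w

/-- acceptance of the Boolean input `w` with `l` guesses in time `t` -/
def NAc {k m : ℕ} (S : Fin (m + 1) → Instr (Fin k) (m + 1))
    (I : PrimeSpectrum (MvPolynomial (Fin k) ℤ)) (O : Bool → List Bool → Bool) (l t : ℕ)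
    (w : List Bool) : Prop :=
  ∃ y : List (AlgebraicClosure (Can k I)), y.length = l ∧
    run (fun i => algebraMap (Can k I) (AlgebraicClosure (Can k I)) (gen k I i)) O S t 0
      (place (w.map (bit _) ++ y)) = some true

/-- the behaviour on Boolean inputs -/
theorem exists_ncode {K : Type u} [Field K] [IsAlgClosed K] (M : Machine K) :
    ∃ (k m : ℕ) (S : Fin (m + 1) → Instr (Fin k) (m + 1))
      (I : PrimeSpectrum (MvPolynomial (Fin k) ℤ)), ∀ (Q A : List Bool → Bool) (l t : ℕ)
      (w : List Bool), (∃ y : List K, y.length = l ∧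
        M.answer Q A t (w.map (bit K) ++ y) = some true) ↔ NAc S I (two Q A) l t w := by
  obtain ⟨I, φ, hφ⟩ := exists_can (fun q => (M.prog q).cst)
  refine ⟨M.m + 1, M.m, fun q => (M.prog q).sh q, I, fun Q A l t w => ?_⟩
  let _ : Algebra (Can (M.m + 1) I) K := φ.toAlgebra
  have hc : (fun i => algebraMap (Can (M.m + 1) I) K (gen (M.m + 1) I i)) =
      fun q => (M.prog q).cst := funext hφ
  have ha : ∀ z : List K, M.answer Q A t z =
      run (fun i => algebraMap (Can (M.m + 1) I) K (gen (M.m + 1) I i)) (two Q A)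
        (fun q => (M.prog q).sh q) t 0 (place z) := fun z => by
    rw [hc, run_sh]
    rfl
  simp only [ha]
  constructor
  · rintro ⟨y, hy, h⟩
    obtain ⟨y', hy', h'⟩ := exists_down _ _ _ _ _ _ _ h
    exact ⟨y', by rw [hy', hy], h'⟩
  · rintro ⟨y, hy, h⟩
    let ψ : AlgebraicClosure (Can (M.m + 1) I) →ₐ[Can (M.m + 1) I] K := IsAlgClosed.lift
    refine ⟨y.map ψ.toRingHom, by simpa using hy, ?_⟩
    rw [← run_map ψ.toRingHom] at h
    rw [← h]
    congr 1
    · funext i
      exact (ψ.commutes _).symm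
    · rw [place_map, List.map_append, map_bit]

/-! ### The questions -/

theorem place_far {K : Type u} [Field K] (l : List K) (z : ℤ) (hz : 2 * (l.length : ℤ) < z) :
    place l z = 0 := by
  unfold place
  split_ifs with h
  · rw [List.getD_eq_getElem?_getD, List.getElem?_eq_none]
    · rfl
    · have h1 : (l.flatMap (fun a => [1, a])).length = 2 * l.length := by
        induction l with
        | nil => rfl
        | cons a l ih =>
          simp only [List.flatMap_cons, List.length_append, List.length_cons, List.length_nil] at *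
          rw [ih (by push_cast at hz; omega)]
          ring
      rw [h1]
      omega
  · rfl

theorem update_far {K : Type u} [Field K] {x : ℤ → K} {n : ℤ} (hx : ∀ z, n < z → x z = 0) (i : ℤ)
    (v : K) : ∀ z, max n i < z → Function.update x i v z = 0 := by
  intro z hz
  rw [Function.update_of_ne (by omega)]
  exact hx z (by omega)

/-- finitely many possible questions, for all inputs of bounded size -/
theorem run_dep_unif {K : Type u} [Field K] {C : Type v} {m : ℕ} (c : C → K)
    (M : Fin m → Instr C m) (Q : List Bool → Bool) :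
    ∀ (t : ℕ) (q : Fin m) (n : ℤ), ∃ F : Finset (List Bool), ∀ x : ℤ → K,
      (∀ z, n < z → x z = 0) → ∀ A A' : List Bool → Bool, (∀ z ∈ F, A z = A' z) →
        run c (two Q A) M t q x = run c (two Q A') M t q x := by
  classical
  intro t
  induction t with
  | zero => intro q n; exact ⟨∅, fun _ _ _ _ _ => rfl⟩
  | succ t ih =>
    intro q n
    simp only [run]
    cases hq : M q with
    | op o i j k q' =>
      obtain ⟨F, hF⟩ := ih q' (max n i)
      exact ⟨F, fun x hx => hF _ (update_far hx _ _)⟩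
    | const a i q' =>
      obtain ⟨F, hF⟩ := ih q' (max n i)
      exact ⟨F, fun x hx => hF _ (update_far hx _ _)⟩
    | copy i j q' =>
      obtain ⟨F, hF⟩ := ih q' (max n i)
      exact ⟨F, fun x hx => hF _ (update_far hx _ _)⟩
    | shift s q' =>
      obtain ⟨F, hF⟩ := ih q' (n - s)
      exact ⟨F, fun x hx => hF _ fun z hz => hx _ (by omega)⟩
    | test i yes no =>
      obtain ⟨F, hF⟩ := ih yes n
      obtain ⟨F', hF'⟩ := ih no n
      refine ⟨F ∪ F', fun x hx A A' hA => ?_⟩
      exact if_congr Iff.rfl (hF x hx A A' fun z hz => hA z (Finset.mem_union_left _ hz))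
        (hF' x hx A A' fun z hz => hA z (Finset.mem_union_right _ hz))
    | ask b yes no =>
      obtain ⟨F, hF⟩ := ih yes n
      obtain ⟨F', hF'⟩ := ih no n
      refine ⟨(Finset.range (n.toNat + 1)).biUnion DT.strs ∪ (F ∪ F'), fun x hx A A' hA => ?_⟩
      refine if_congr (exists_congr fun w => and_congr_right fun hw => ?_)
        (hF x hx A A' fun z hz =>
          hA z (Finset.mem_union_right _ (Finset.mem_union_left _ hz)))
        (hF' x hx A A' fun z hz =>
          hA z (Finset.mem_union_right _ (Finset.mem_union_right _ hz)))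
      have h1 : w.length < n.toNat + 1 := by
        by_contra hcon
        have h2 := (hw.1 (w.length - 1) (by rw [List.length_map]; omega)).1
        apply h2
        apply hx
        omega
      have h2 := hA w (Finset.mem_union_left _ (Finset.mem_biUnion.2
        ⟨w.length, Finset.mem_range.2 h1, DT.mem_strs.2 rfl⟩))
      cases b
      · exact Iff.rfl
      · simp only [two, if_true, h2]
    | halt b => exact ⟨∅, fun _ _ _ _ _ => rfl⟩

theorem nac_dep {k m : ℕ} (S : Fin (m + 1) → Instr (Fin k) (m + 1))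
    (I : PrimeSpectrum (MvPolynomial (Fin k) ℤ)) (Q : List Bool → Bool) (l t : ℕ)
    (w : List Bool) : ∃ F, DepO F {A | NAc S I (two Q A) l t w} := by
  obtain ⟨F, hF⟩ := run_dep_unif
    (fun i => algebraMap (Can k I) (AlgebraicClosure (Can k I)) (gen k I i)) S Q t 0
    (2 * ((w.length + l : ℕ) : ℤ))
  refine ⟨F, fun A A' hA h1 => ?_⟩
  obtain ⟨y, hy, h2⟩ := h1
  refine ⟨y, hy, ?_⟩
  rw [← hF _ (fun z hz => place_far _ _ ?_) A A' hA]
  · exact h2
  · rw [List.length_append, List.length_map, hy]
    exact hz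

theorem nac_cert {k m : ℕ} (S : Fin (m + 1) → Instr (Fin k) (m + 1))
    (I : PrimeSpectrum (MvPolynomial (Fin k) ℤ)) (Q A : List Bool → Bool) (l t : ℕ)
    (w : List Bool) (h : NAc S I (two Q A) l t w) : ∃ T : Finset (List Bool), T.card ≤ t ∧
      ∀ A', (∀ z ∈ T, A' z = A z) → NAc S I (two Q A') l t w := by
  obtain ⟨y, hy, h1⟩ := h
  obtain ⟨T, hT, h2⟩ := run_local
    (fun i => algebraMap (Can k I) (AlgebraicClosure (Can k I)) (gen k I i)) S Q A t 0
    (place (w.map (bit _) ++ y))
  exact ⟨T, hT, fun A' hA => ⟨y, hy, by rw [h2 A' hA, h1]⟩⟩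

/-! ### The law -/

open Classical in
theorem ae_acc {Acc : ℕ → Set Oracle} (hdep : ∀ N, ∃ F, DepO F (Acc N))
    (hcert : ∀ N, ∀ A ∈ Acc N, ∃ T : Finset (List Bool), T.card ≤ 2 ^ (N - 1) ∧
      ∀ A', (∀ z ∈ T, A' z = A z) → A' ∈ Acc N) :
    ∀ᵐ A ∂(indep (fun _ => half)), ∃ᶠ N in Filter.atTop, Pw N ∧
      ¬ (A ∈ Acc N ↔ ∀ w : List Bool, w.length = N → ¬ ∀ z ∈ grp N w, A z = true) := by
  have h := engine2 (fun _ => half) (P := Pw) (W := fun N => DT.strs N) (g := grp)
    (t := fun _ => true) (Acc := Acc)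
    (π := fun N => (1 / 2) ^ (N + 1)) (fun N => by positivity)
    (fun N w hw w' hw' hne => grp_disj (DT.mem_strs.1 hw) (DT.mem_strs.1 hw') hne)
    (fun N w hw z hz => (mem_grp hz (DT.mem_strs.1 hw)).1)
    (by
      intro N N' hN hN' hne w hw w' hw'
      rw [Finset.disjoint_left]
      intro z hz hz'
      have h1 := mem_grp hz (DT.mem_strs.1 hw)
      have h2 := mem_grp hz' (DT.mem_strs.1 hw')
      obtain ⟨a, rfl⟩ := hN
      obtain ⟨b, rfl⟩ := hN'
      rcases lt_trichotomy a b with h3 | rfl | h3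
      · have h4 : 3 ^ (a + 1) ≤ 3 ^ b := Nat.pow_le_pow_right (by norm_num) h3
        have h5 : 0 < 3 ^ a := by positivity
        rw [pow_succ] at h4
        omega
      · exact hne rfl
      · have h4 : 3 ^ (b + 1) ≤ 3 ^ a := Nat.pow_le_pow_right (by norm_num) h3
        have h5 : 0 < 3 ^ b := by positivity
        rw [pow_succ] at h4
        omega)
    (by
      intro N _ w hw
      have h1 : ∀ z ∈ grp N w, ber ((half : unitInterval) : ℝ) true = 1 / 2 := by
        intro z _
        simp [ber, half]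
      rw [Finset.prod_congr rfl h1, Finset.prod_const, card_grp])
    (by
      intro N _
      rw [card_strs]
      push_cast
      rw [pow_succ, ← mul_assoc, ← mul_pow]
      norm_num)
    (by
      intro hs
      have h1 := hs.tendsto_atTop_zero
      have h2 := (h1.comp (tendsto_pow_atTop_atTop_of_one_lt (by norm_num : 1 < 3))).eventually
        (gt_mem_nhds (show (0 : ℝ) < 1 / 4 by norm_num))
      obtain ⟨k, hk⟩ := h2.exists
      simp only [Function.comp] at hk
      rw [if_pos ⟨k, rfl⟩, card_strs] at hk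
      push_cast at hk
      rw [pow_succ, ← mul_assoc, ← mul_pow] at hk
      norm_num at hk)
    hdep
    (by
      intro N hN A hA
      obtain ⟨T, hT, h1⟩ := hcert N A hA
      refine ⟨T, ?_, h1⟩
      rw [card_strs]
      have h2 := hN.pos
      have h3 : 2 * 2 ^ (N - 1) = 2 ^ N := by
        rw [← pow_succ']
        congr 1
        omega
      omega)
  filter_upwards [h] with A hA
  refine hA.mono fun N hN => ⟨hN.1, fun hcon => hN.2 ?_⟩
  rw [hcon]
  constructor
  · intro h1 w hw h2
    exact h1 w (DT.mem_strs.1 hw) h2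
  · intro h1 w hw h2
    exact h1 w (DT.mem_strs.2 hw) h2

/-- **The separation.** -/
theorem ae_nsep {J : Type} [Countable J] (ℓ : J → ℕ → ℕ) (Q : List Bool → Bool) :
    ∀ᵐ A ∂(indep (fun _ => half)), ∀ (K : Type u) [Field K] [IsAlgClosed K] (M : Machine K)
      (j : J), ∃ᶠ N in Filter.atTop, ¬ ((ins N).map (bit K) ∉ lang K A ↔
        ∃ y : List K, y.length = ℓ j N ∧
          M.answer Q A (2 ^ (N - 1)) ((ins N).map (bit K) ++ y) = some true) := by
  have h : ∀ᵐ A ∂(indep (fun _ => half)), ∀ (k m : ℕ)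
      (S : Fin (m + 1) → Instr (Fin k) (m + 1)) (I : PrimeSpectrum (MvPolynomial (Fin k) ℤ))
      (j : J), ∃ᶠ N in Filter.atTop, Pw N ∧
        ¬ (NAc S I (two Q A) (ℓ j N) (2 ^ (N - 1)) (ins N) ↔
          ∀ w : List Bool, w.length = N → ¬ ∀ z ∈ grp N w, A z = true) := by
    rw [ae_all_iff]
    intro k
    rw [ae_all_iff]
    intro m
    rw [ae_all_iff]
    intro S
    rw [ae_all_iff]
    intro I
    rw [ae_all_iff]
    intro j
    exact ae_acc (Acc := fun N => {A | NAc S I (two Q A) (ℓ j N) (2 ^ (N - 1)) (ins N)})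
      (fun N => nac_dep S I Q _ _ _) (fun N A hA => nac_cert S I Q A _ _ _ hA)
  filter_upwards [h] with A hA
  intro K _ _ M j
  obtain ⟨k, m, S, I, hS⟩ := exists_ncode M
  refine (hA k m S I j).mono fun N hN hM => hN.2 ?_
  rw [hS, ins_mem A hN.1.pos] at hM
  rw [← hM]
  push Not
  rfl

instance : Countable (Polynomial ℕ) := by
  rw [← Cardinal.mk_le_aleph0_iff]
  refine Polynomial.cardinalMk_le_max.trans ?_
  simp

end Pool.Agent.TH680.BSS
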